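import Pool.Agent.helper21.OE.SpecC

set_option autoImplicit false

/-! # Row CBT of project OE: conjugation and the map `bT` -/

namespace Pool.Agent.OE

open MvPolynomial Matrix

/-- one term of `bT` -/
noncomputable def CBT_term {d t : ℤ} {κ : Type} [Field κ] (π : Oz d t →+* κ) (ℓ k : ℕ)
    (ψ : Vec d t → Vec d t → κ) (g : Mat d t) (u v : Vec d t) : Pol κ :=
  C (ψ (al ℓ g *ᵥ u) (al ℓ g *ᵥ v)) * lin π k (g 0 0) (g 0 1)

lemma CBT_sw {d t : ℤ} {κ : Type} [Field κ] (π : Oz d t →+* κ) (k : ℕ) (c : κ) (a b : Oz d t) :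
    sw (C c * lin π k a b) = C c * lin π k (star a) (star b) := by
  have e2 : (![X 2, X 3, X 0, X 1] : Fin 4 → Pol κ) 2 = X 0 := rfl
  have e3 : (![X 2, X 3, X 0, X 1] : Fin 4 → Pol κ) 3 = X 1 := rfl
  unfold sw lin
  simp only [map_mul, map_pow, map_sub, aeval_X, algHom_C, algebraMap_eq, star_star,
    Matrix.cons_val_zero, Matrix.cons_val_one, e2, e3]
  ring

lemma CBT_left {d t : ℤ} (ht : IsEuc d t) (hCNJ : CNJ_stmt) (hDTU : DTU_stmt) {ℓ : ℕ}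
    (hℓ : ℓ.Prime) {κ : Type} [Field κ] (π : Oz d t →+* κ) (hπ : ((ℓ : ℕ) : κ) = 0) (k j : ℕ)
    (hkj : ∀ x : Oz d t, ¬ ((ℓ : ℕ) : ℤ) ∣ x.norm → π (x * star x) ^ k = π (x * star x) ^ j)
    (ψ : Vec d t → Vec d t → κ) (hψ : IsSc π j (ℓ ^ 1) ψ) (h : GO d t)
    (hh : ((ℓ : ℕ) : Oz d t) ∣ h.val 0 1) (g : Mat d t) (u v : Vec d t) :
    CBT_term π ℓ k ψ (h.val * g) u v = CBT_term π ℓ k ψ g u v := by
  obtain ⟨h', e1, e2, e3⟩ := hCNJ d t ℓ hℓ.ne_zero h hh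
  obtain ⟨n1, n2, n3⟩ := hDTU d t ht ℓ hℓ h (Or.inr hh)
  obtain ⟨-, hN⟩ := n3 π hπ
  have hz1 : π (h.val 0 1) = 0 := by
    obtain ⟨c, hc⟩ := hh
    rw [hc, map_mul, map_natCast, hπ, zero_mul]
  have hz2 : π (star (h.val 0 1)) = 0 := by
    obtain ⟨c, hc⟩ := hh
    rw [hc, star_mul, star_natCast, map_mul, map_natCast, hπ, mul_zero]
  have hM : al ℓ (h.val * g) = h'.val * al ℓ g := by
    unfold al
    rw [← Matrix.mul_assoc, ← Matrix.mul_assoc, e1]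
  have hψ' : ψ (al ℓ (h.val * g) *ᵥ u) (al ℓ (h.val * g) *ᵥ v) =
      π (h.val 1 1 * star (h.val 1 1)) ^ j * ψ (al ℓ g *ᵥ u) (al ℓ g *ᵥ v) := by
    have hv : ∀ z : Vec d t, (h'.val * al ℓ g) *ᵥ z = h'.val *ᵥ (al ℓ g *ᵥ z) :=
      fun z => (Matrix.mulVec_mulVec _ _ _).symm
    have hdv : ((ℓ ^ 1 : ℕ) : Oz d t) ∣ h'.val 1 0 := by
      rw [e2, pow_one]
      exact Dvd.intro _ rfl
    rw [hM, hv, hv, hψ.equiv h' _ _ hdv, e3]
  have hp : lin π k ((h.val * g) 0 0) ((h.val * g) 0 1) =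
      C (π (h.val 0 0 * star (h.val 0 0)) ^ k) * lin π k (g 0 0) (g 0 1) := by
    have a1 : π ((h.val * g) 0 0) = π (h.val 0 0) * π (g 0 0) := by
      rw [Matrix.mul_apply, Fin.sum_univ_two, map_add, map_mul, map_mul, hz1, zero_mul, add_zero]
    have a2 : π ((h.val * g) 0 1) = π (h.val 0 0) * π (g 0 1) := by
      rw [Matrix.mul_apply, Fin.sum_univ_two, map_add, map_mul, map_mul, hz1, zero_mul, add_zero]
    have a3 : π (star ((h.val * g) 0 0)) = π (star (h.val 0 0)) * π (star (g 0 0)) := by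
      rw [Matrix.mul_apply, Fin.sum_univ_two, star_add, star_mul, star_mul, map_add, map_mul,
        map_mul, hz2, mul_zero, add_zero, mul_comm]
    have a4 : π (star ((h.val * g) 0 1)) = π (star (h.val 0 0)) * π (star (g 0 1)) := by
      rw [Matrix.mul_apply, Fin.sum_univ_two, star_add, star_mul, star_mul, map_add, map_mul,
        map_mul, hz2, mul_zero, add_zero, mul_comm]
    unfold lin
    rw [a1, a2, a3, a4]
    simp only [map_mul, map_pow]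
    have b1 : (C (π (h.val 0 0)) * C (π (g 0 0)) * X 1 - C (π (h.val 0 0)) * C (π (g 0 1)) * X 0 :
        Pol κ) = C (π (h.val 0 0)) * (C (π (g 0 0)) * X 1 - C (π (g 0 1)) * X 0) := by ring
    have b2 : (C (π (star (h.val 0 0))) * C (π (star (g 0 0))) * X 3 -
        C (π (star (h.val 0 0))) * C (π (star (g 0 1))) * X 2 : Pol κ) =
        C (π (star (h.val 0 0))) * (C (π (star (g 0 0))) * X 3 - C (π (star (g 0 1))) * X 2) := by
      ring
    rw [b1, b2, mul_pow, mul_pow, mul_pow]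
    ring
  have hone : π (h.val 1 1 * star (h.val 1 1)) ^ j * π (h.val 0 0 * star (h.val 0 0)) ^ k = 1 := by
    rw [hkj _ n1, ← mul_pow, mul_comm (π (h.val 1 1 * star (h.val 1 1))), hN, one_pow]
  unfold CBT_term
  rw [hψ', hp, C_mul]
  have hC : ∀ (s s' r : κ) (Q : Pol κ), C s * C r * (C s' * Q) = C (s * s') * (C r * Q) := by
    intro s s' r Q
    rw [C_mul]
    ring
  rw [hC, hone, map_one, one_mul]

theorem CBT (hCMG : CMG_stmt) (hCEV : CEV_stmt) (hPRC : PRC_stmt) (hCNJ : CNJ_stmt)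
    (hDTU : DTU_stmt) : CBT_stmt := by
  intro d t ht ℓ hℓ F hF κ _ π hπ k j hkj ψ hψ
  obtain ⟨-, c2, -, -, -, c6, -, c8, -, -⟩ := hCMG d t
  obtain ⟨σ, hσ⟩ := hPRC d t ℓ F hF
  have hcs : IsSc π j (ℓ ^ 1) (cs ψ) := hCEV.2 π j (ℓ ^ 1) ψ hψ
  funext u v
  have h0 : cj (bT π ℓ F k ψ) u v = sw (bT π ℓ F k ψ (cv u) (cv v)) := rfl
  have hL : bT π ℓ F k ψ (cv u) (cv v) =
      ∑ g ∈ F, CBT_term π ℓ k ψ g.val (cv u) (cv v) := rfl
  have hR : bT π ℓ F k (cs ψ) u v = ∑ g ∈ F, CBT_term π ℓ k (cs ψ) g.val u v := rfl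
  have hmv : ∀ (g : Mat d t) (z : Vec d t), al ℓ g *ᵥ cv z = cv (al ℓ (cm g) *ᵥ z) := by
    intro g z
    rw [← c6 (al ℓ g *ᵥ cv z), c2, c8, c6]
  have h1 : ∀ g : F, sw (CBT_term π ℓ k ψ g.val.val (cv u) (cv v)) =
      CBT_term π ℓ k (cs ψ) (σ g).val.val u v := by
    intro g
    obtain ⟨h, hh, e⟩ := hσ g
    rw [← CBT_left ht hCNJ hDTU hℓ π hπ k j hkj (cs ψ) hcs h hh, ← e]
    unfold CBT_term
    rw [CBT_sw, hmv, hmv]
    rfl
  rw [h0, hL, hR, map_sum, ← Finset.sum_coe_sort F, ← Finset.sum_coe_sort F,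
    Finset.sum_congr rfl fun i _ => h1 i]
  exact Equiv.sum_comp σ fun g : F => CBT_term π ℓ k (cs ψ) g.val.val u v

end Pool.Agent.OE
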