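import Pool.Agent.helper21.OE.SpecA

set_option autoImplicit false

/-! # Row REP of project OE: representatives modulo a prime -/

namespace Pool.Agent.OE

lemma REP_dvd (d t : ℤ) (ℓ : ℕ) (z : Oz d t) :
    ((ℓ : ℕ) : Oz d t) ∣ z ↔ (ℓ : ℤ) ∣ z.re ∧ (ℓ : ℤ) ∣ z.im := by
  have h : ((ℓ : ℕ) : Oz d t) = algebraMap ℤ (Oz d t) (ℓ : ℤ) := by
    simp
  rw [h, QuadraticAlgebra.algebraMap_dvd_iff]

lemma REP_ex (ℓ : ℕ) (hℓ : 0 < ℓ) (a : ℤ) : ∃ x : Fin ℓ, (ℓ : ℤ) ∣ a - ((x : ℕ) : ℤ) := by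
  have hl : (0 : ℤ) < ℓ := by exact_mod_cast hℓ
  have h0 := Int.emod_nonneg a hl.ne'
  have h1 := Int.emod_lt_of_pos a hl
  refine ⟨⟨(a % ℓ).toNat, ?_⟩, ?_⟩
  · omega
  · simp only
    rw [Int.toNat_of_nonneg h0]
    exact Int.dvd_self_sub_emod

lemma REP_un (ℓ : ℕ) (x y : Fin ℓ) (h : (ℓ : ℤ) ∣ ((x : ℕ) : ℤ) - ((y : ℕ) : ℤ)) : x = y := by
  have hx := x.2
  have hy := y.2
  have h0 : ((x : ℕ) : ℤ) - ((y : ℕ) : ℤ) = 0 := by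
    apply Int.eq_zero_of_abs_lt_dvd h
    rw [abs_lt]
    constructor <;> omega
  apply Fin.ext
  omega

theorem REP : REP_stmt := by
  intro d t ℓ hℓ
  refine ⟨?_, ?_⟩
  · intro z
    obtain ⟨x, hx⟩ := REP_ex ℓ hℓ.pos z.re
    obtain ⟨y, hy⟩ := REP_ex ℓ hℓ.pos z.im
    refine ⟨(x, y), ?_⟩
    rw [REP_dvd]
    exact ⟨hx, hy⟩
  · intro x y h
    rw [REP_dvd] at h
    exact Prod.ext (REP_un ℓ _ _ h.1) (REP_un ℓ _ _ h.2)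

end Pool.Agent.OE
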